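import Pool.Agent.H47.SQ.Targets5

/-!
(YRN) renaming the variables.
-/

set_option autoImplicit false

namespace Pool.Agent.H38.SQ

open Finset Pool.Agent.H47.SR
open Pool.Agent.H47.SQ (Fml Done Derivation Refuted Find Tree success chain)

/-- the renaming of the literals -/
def le {n : ℕ} (π : Equiv.Perm (Fin n)) : (Fin n × Bool) ≃ (Fin n × Bool) :=
  Equiv.prodCongr π (Equiv.refl Bool)

theorem le_apply {n : ℕ} (π : Equiv.Perm (Fin n)) (x : Fin n × Bool) :
    le π x = (π x.1, x.2) := rfl

theorem rn_eq {n k m : ℕ} (π : Equiv.Perm (Fin n)) (F : Fml n k m) (c : Fin m) (i : Fin k) :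
    rn π F c i = le π (F c i) := rfl

theorem map_ins {n : ℕ} (π : Equiv.Perm (Fin n)) (L : Finset (Fin n × Bool)) (v : Fin n)
    (b : Bool) : (insert (v, b) L).map (le π).toEmbedding =
      insert (π v, b) (L.map (le π).toEmbedding) := by
  rw [Finset.map_insert]
  rfl

theorem mem_le {n : ℕ} (π : Equiv.Perm (Fin n)) (L : Finset (Fin n × Bool)) (v : Fin n)
    (b : Bool) : (π v, b) ∈ L.map (le π).toEmbedding ↔ (v, b) ∈ L := by
  rw [Finset.mem_map_equiv]
  have : (le π).symm (π v, b) = (v, b) := by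
    rw [Equiv.symm_apply_eq]
    rfl
  rw [this]

theorem refuted_map {n k m : ℕ} (π : Equiv.Perm (Fin n)) (F : Fml n k m) (a s : ℕ)
    (L : Finset (Fin n × Bool)) (h : Refuted F a s L) :
    Refuted (rn π F) a s (L.map (le π).toEmbedding) := by
  obtain ⟨S, r, line, hS, hr, hD, hL⟩ := h
  refine ⟨S, r, fun i => (line i).map (le π).toEmbedding, hS, hr, ?_, ?_⟩
  · intro i hi
    rcases hD i hi with ⟨C, hC, hz⟩ | ⟨j, hj, hsub⟩ | ⟨x, j, l, hj, hl, hsj, hsl⟩
    · refine Or.inl ⟨C, hC, fun z hzC => ?_⟩
      obtain ⟨x, hx, hxz⟩ := hz (fun v => z (π v)) (fun c hc => by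
        obtain ⟨p, hp⟩ := hzC c hc
        exact ⟨p, hp⟩)
      exact ⟨le π x, Finset.mem_map_of_mem _ hx, hxz⟩
    · exact Or.inr (Or.inl ⟨j, hj, Finset.map_subset_map.2 hsub⟩)
    · refine Or.inr (Or.inr ⟨π x, j, l, hj, hl, ?_, ?_⟩)
      · rw [← map_ins]
        exact Finset.map_subset_map.2 hsj
      · rw [← map_ins]
        exact Finset.map_subset_map.2 hsl
  · intro l hl
    obtain ⟨l0, hl0, rfl⟩ := Finset.mem_map.1 hl
    have h1 := hL l0 hl0
    exact (mem_le π L l0.1 (!l0.2)).2 h1

theorem rn_symm {n k m : ℕ} (π : Equiv.Perm (Fin n)) (F : Fml n k m) :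
    rn π.symm (rn π F) = F := by
  funext c i
  show ((π.symm (π (F c i).1)), (F c i).2) = F c i
  rw [Equiv.symm_apply_apply]

theorem map_symm {n : ℕ} (π : Equiv.Perm (Fin n)) (L : Finset (Fin n × Bool)) :
    (L.map (le π).toEmbedding).map (le π.symm).toEmbedding = L := by
  rw [Finset.map_map]
  ext x
  rw [Finset.mem_map]
  constructor
  · rintro ⟨y, hy, rfl⟩
    have : ((le π).toEmbedding.trans (le π.symm).toEmbedding) y = y := by
      show (π.symm (π y.1), y.2) = y
      rw [Equiv.symm_apply_apply]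
    rw [this]
    exact hy
  · intro hx
    refine ⟨x, hx, ?_⟩
    show (π.symm (π x.1), x.2) = x
    rw [Equiv.symm_apply_apply]

theorem refuted_iff {n k m : ℕ} (π : Equiv.Perm (Fin n)) (F : Fml n k m) (a s : ℕ)
    (L : Finset (Fin n × Bool)) :
    Refuted (rn π F) a s (L.map (le π).toEmbedding) ↔ Refuted F a s L := by
  constructor
  · intro h
    have h1 := refuted_map π.symm (rn π F) a s _ h
    rwa [rn_symm, map_symm] at h1
  · exact refuted_map π F a s L

theorem done_iff {n k m : ℕ} (π : Equiv.Perm (Fin n)) (F : Fml n k m)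
    (L : Finset (Fin n × Bool)) :
    Done (rn π F) (L.map (le π).toEmbedding) ↔ Done F L := by
  unfold Done
  refine forall_congr' fun c => exists_congr fun i => ?_
  exact mem_le π L (F c i).1 (F c i).2

theorem find_iff {n k m : ℕ} (π : Equiv.Perm (Fin n)) (F : Fml n k m) (a s : ℕ)
    (w : Finset (Fin n × Bool) → Bool) (l : List (Fin n)) :
    ∀ L : Finset (Fin n × Bool),
    Find (rn π F) (Refuted (rn π F) a s) w (chain (l.map π)) (L.map (le π).toEmbedding) ↔
      Find F (Refuted F a s) (fun L => w (L.map (le π).toEmbedding)) (chain l) L := by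
  induction l with
  | nil => intro L; exact done_iff π F L
  | cons v l ih =>
    intro L
    rw [List.map_cons]
    show ((∃ b, (π v, b) ∈ L.map (le π).toEmbedding ∧
        Find (rn π F) (Refuted (rn π F) a s) w (chain (l.map π)) (L.map (le π).toEmbedding)) ∨
      ((∀ b, (π v, b) ∉ L.map (le π).toEmbedding) ∧
        ∃ b, (w (L.map (le π).toEmbedding) = b ∨
          Refuted (rn π F) a s (insert (π v, !b) (L.map (le π).toEmbedding))) ∧
        Find (rn π F) (Refuted (rn π F) a s) w (chain (l.map π))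
          (insert (π v, b) (L.map (le π).toEmbedding)))) ↔
      ((∃ b, (v, b) ∈ L ∧
        Find F (Refuted F a s) (fun L => w (L.map (le π).toEmbedding)) (chain l) L) ∨
      ((∀ b, (v, b) ∉ L) ∧
        ∃ b, (w (L.map (le π).toEmbedding) = b ∨ Refuted F a s (insert (v, !b) L)) ∧
        Find F (Refuted F a s) (fun L => w (L.map (le π).toEmbedding)) (chain l)
          (insert (v, b) L)))
    refine or_congr (exists_congr fun b => and_congr (mem_le π L v b) (ih L))
      (and_congr (forall_congr' fun b => not_congr (mem_le π L v b))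
        (exists_congr fun b => and_congr (or_congr Iff.rfl ?_) ?_))
    · rw [← map_ins]
      exact refuted_iff π F a s _
    · rw [← map_ins]
      exact ih _

theorem pf_YRN : T_YRN := by
  intro n k m F π a s
  unfold success
  congr 2
  refine Nat.card_congr (Equiv.subtypeEquiv
    (Equiv.arrowCongr (le π).finsetCongr.symm (Equiv.refl Bool)) fun w => ?_)
  have h := find_iff π F a s w (List.finRange n) ∅
  rw [Finset.map_empty] at h
  rw [List.ofFn_eq_map]
  exact h

end Pool.Agent.H38.SQ
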